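import Mathlib

/-! The one-sided Bernoulli shift is mixing. -/

set_option autoImplicit false
open MeasureTheory Filter Topology ProbabilityTheory Set
open scoped ENNReal symmDiff

namespace Pool.Agent.X125.Bern

variable {Y : Type*} [MeasurableSpace Y] (ν : Measure Y) [IsProbabilityMeasure ν]

/-- The product measure on one-sided sequences. -/
noncomputable def P : Measure (ℕ → Y) := Measure.infinitePi (fun _ : ℕ => ν)

instance : IsProbabilityMeasure (P ν) := by unfold P; infer_instance

/-- The shift by `n`. -/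
def sh (n : ℕ) (ω : ℕ → Y) : ℕ → Y := fun i => ω (i + n)

lemma measurable_sh (n : ℕ) : Measurable (sh n : (ℕ → Y) → (ℕ → Y)) :=
  measurable_pi_lambda _ fun _ => measurable_pi_apply _

omit [MeasurableSpace Y] in
lemma sh_iter (n : ℕ) : (sh 1 : (ℕ → Y) → (ℕ → Y))^[n] = sh n := by
  induction n with
  | zero => funext ω i; simp [sh]
  | succ n ih =>
    rw [Function.iterate_succ', ih]
    funext ω i
    simp only [Function.comp, sh]
    congr 1
    ring

lemma mp_sh (n : ℕ) : MeasurePreserving (sh n) (P ν) (P ν) := by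
  classical
  refine ⟨measurable_sh n, ?_⟩
  unfold P
  apply Measure.eq_infinitePi
  intro s t ht
  rw [Measure.map_apply (measurable_sh n) (MeasurableSet.pi s.countable_toSet fun i _ => ht i)]
  have e : (sh n) ⁻¹' (Set.pi s t) =
      Set.pi (s.map (addRightEmbedding n) : Finset ℕ) (fun y => t (y - n)) := by
    ext v
    simp only [Set.mem_preimage, Set.mem_pi, Finset.mem_coe, Finset.mem_map,
      addRightEmbedding_apply]
    constructor
    · rintro h _ ⟨y, hy, rfl⟩
      rw [Nat.add_sub_cancel]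
      exact h y hy
    · intro h y hy
      have := h (y + n) ⟨y, hy, rfl⟩
      rwa [Nat.add_sub_cancel] at this
  rw [e, Measure.infinitePi_pi]
  · rw [Finset.prod_map]
    refine Finset.prod_congr rfl (fun y _ => ?_)
    have h0 : y + n - n = y := Nat.add_sub_cancel y n
    change ν (t (y + n - n)) = _
    rw [h0]
  · intro y hy
    exact ht _

lemma iIndep : iIndepFun (fun (i : ℕ) (ω : ℕ → Y) => ω i) (P ν) := by
  have := iIndepFun_infinitePi (P := fun _ : ℕ => ν) (X := fun (_ : ℕ) (y : Y) => y)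
    (fun _ => measurable_id)
  exact this

/-- Cylinder sets are independent of far translates of cylinder sets. -/
lemma cyl_indep (I I' : Finset ℕ) (S : Set (I → Y)) (hS : MeasurableSet S) (S' : Set (I' → Y))
    (hS' : MeasurableSet S') :
    ∀ᶠ n : ℕ in atTop, P ν (cylinder I S ∩ sh n ⁻¹' cylinder I' S') =
      P ν (cylinder I S) * P ν (cylinder I' S') := by
  classical
  obtain ⟨M, hM⟩ : ∃ M : ℕ, ∀ i ∈ I, i ≤ M :=
    ⟨I.sup id, fun i hi => Finset.le_sup (f := id) hi⟩
  filter_upwards [eventually_gt_atTop M] with n hn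
  set J : Finset ℕ := I'.map (addRightEmbedding n) with hJ
  have hdisj : Disjoint I J := by
    rw [Finset.disjoint_left]
    intro i hi hiJ
    rw [hJ, Finset.mem_map] at hiJ
    obtain ⟨j, hj, hji⟩ := hiJ
    have h1 := hM i hi
    have h3 : j + n = i := hji
    omega
  have hind := (iIndep ν).indepFun_finset I J hdisj (fun i => measurable_pi_apply i)
  let g : (J → Y) → (I' → Y) := fun v i => v ⟨i.1 + n, by
    rw [hJ, Finset.mem_map]; exact ⟨i.1, i.2, rfl⟩⟩
  have hg : Measurable g := measurable_pi_lambda _ fun i => measurable_pi_apply _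
  have hpre : sh n ⁻¹' cylinder I' S' = (fun (ω : ℕ → Y) (i : J) => ω i) ⁻¹' (g ⁻¹' S') := by
    ext ω
    rfl
  have hcyl : cylinder I S = (fun (ω : ℕ → Y) (i : I) => ω i) ⁻¹' S := rfl
  have h := hind.measure_inter_preimage_eq_mul S (g ⁻¹' S') hS (hg hS')
  have h2 : P ν (sh n ⁻¹' cylinder I' S') = P ν (cylinder I' S') :=
    (mp_sh ν n).measure_preimage (MeasurableSet.cylinder I' hS').nullMeasurableSet
  have h3 : P ν (cylinder I S ∩ sh n ⁻¹' cylinder I' S') =
      P ν (cylinder I S) * P ν (sh n ⁻¹' cylinder I' S') := by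
    rw [hpre, hcyl]; exact h
  rw [h3, h2]

lemma approx {A : Set (ℕ → Y)} (hA : MeasurableSet A) {ε : ℝ} (hε : 0 < ε) :
    ∃ (I : Finset ℕ) (S : Set (I → Y)), MeasurableSet S ∧
      (P ν).real (A ∆ cylinder I S) < ε := by
  have hdense := Measure.MeasureDense.of_generateFrom_isSetAlgebra_finite (P ν)
    (𝒜 := measurableCylinders (fun _ : ℕ => Y))
    ⟨empty_mem_measurableCylinders _, fun s hs => compl_mem_measurableCylinders hs,
      fun s t hs ht => union_mem_measurableCylinders hs ht⟩ generateFrom_measurableCylinders.symm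
  obtain ⟨B, hB, hAB⟩ := hdense.approx A hA (measure_ne_top _ A) (ε / 2) (by linarith)
  obtain ⟨I, S, hS, rfl⟩ := (mem_measurableCylinders B).1 hB
  refine ⟨I, S, hS, ?_⟩
  rw [Measure.real]
  refine lt_of_le_of_lt (ENNReal.toReal_le_of_le_ofReal (by linarith) hAB.le) (by linarith)

lemma real_sub_le {X : Type*} [MeasurableSpace X] (μ : Measure X) [IsFiniteMeasure μ]
    (A B : Set X) : |μ.real A - μ.real B| ≤ μ.real (A ∆ B) := by
  have h1 : μ.real A ≤ μ.real B + μ.real (A ∆ B) := by
    calc μ.real A ≤ μ.real (B ∪ A ∆ B) := measureReal_mono (by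
          intro x hx
          by_cases hxB : x ∈ B
          · exact Or.inl hxB
          · exact Or.inr (Or.inl ⟨hx, hxB⟩)) (measure_ne_top _ _)
      _ ≤ _ := measureReal_union_le _ _
  have h2 : μ.real B ≤ μ.real A + μ.real (A ∆ B) := by
    calc μ.real B ≤ μ.real (A ∪ A ∆ B) := measureReal_mono (by
          intro x hx
          by_cases hxA : x ∈ A
          · exact Or.inl hxA
          · exact Or.inr (Or.inr ⟨hx, hxA⟩)) (measure_ne_top _ _)
      _ ≤ _ := measureReal_union_le _ _
  rw [abs_le]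
  constructor <;> linarith

/-- Mixing of the one-sided Bernoulli shift. -/
theorem mixing_real {A B : Set (ℕ → Y)} (hA : MeasurableSet A) (hB : MeasurableSet B) :
    Tendsto (fun n : ℕ => (P ν).real (B ∩ sh n ⁻¹' A)) atTop
      (𝓝 ((P ν).real B * (P ν).real A)) := by
  rw [Metric.tendsto_atTop]
  intro ε hε
  obtain ⟨I, S, hS, hlt⟩ := approx ν hB (ε := ε / 8) (by linarith)
  obtain ⟨I', S', hS', hlt'⟩ := approx ν hA (ε := ε / 8) (by linarith)
  have hC : MeasurableSet (cylinder I S : Set (ℕ → Y)) := MeasurableSet.cylinder I hS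
  have hC' : MeasurableSet (cylinder I' S' : Set (ℕ → Y)) := MeasurableSet.cylinder I' hS'
  obtain ⟨N, hN⟩ := eventually_atTop.1 (cyl_indep ν I I' S hS S' hS')
  refine ⟨N, fun n hn => ?_⟩
  have h0 := hN n hn
  set C : Set (ℕ → Y) := cylinder I S with hCdef
  set C' : Set (ℕ → Y) := cylinder I' S' with hCdef'
  have h1 : (P ν).real (C ∩ sh n ⁻¹' C') = (P ν).real C * (P ν).real C' := by
    rw [Measure.real, h0, ENNReal.toReal_mul]; rfl
  have h2 : |(P ν).real B - (P ν).real C| ≤ (P ν).real (B ∆ C) := real_sub_le _ B C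
  have h2' : |(P ν).real A - (P ν).real C'| ≤ (P ν).real (A ∆ C') := real_sub_le _ A C'
  have h3 : |(P ν).real (B ∩ sh n ⁻¹' A) - (P ν).real (C ∩ sh n ⁻¹' C')| ≤
      (P ν).real (B ∆ C) + (P ν).real (A ∆ C') := by
    refine (real_sub_le _ _ _).trans ?_
    calc (P ν).real ((B ∩ sh n ⁻¹' A) ∆ (C ∩ sh n ⁻¹' C'))
        ≤ (P ν).real (B ∆ C ∪ sh n ⁻¹' (A ∆ C')) := measureReal_mono (by
          intro x hx
          rcases hx with ⟨⟨h1, h2⟩, h3⟩ | ⟨⟨h1, h2⟩, h3⟩
          · by_cases hx1 : x ∈ C
            · right; left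
              exact ⟨h2, fun h => h3 ⟨hx1, h⟩⟩
            · left; left; exact ⟨h1, hx1⟩
          · by_cases hx1 : x ∈ B
            · right; right
              exact ⟨h2, fun h => h3 ⟨hx1, h⟩⟩
            · left; right; exact ⟨h1, hx1⟩) (measure_ne_top _ _)
      _ ≤ (P ν).real (B ∆ C) + (P ν).real (sh n ⁻¹' (A ∆ C')) := measureReal_union_le _ _
      _ = (P ν).real (B ∆ C) + (P ν).real (A ∆ C') := by
          have : (P ν).real (sh n ⁻¹' (A ∆ C')) = (P ν).real (A ∆ C') := by
            rw [Measure.real, Measure.real,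
              (mp_sh ν n).measure_preimage (hA.symmDiff hC').nullMeasurableSet]
          rw [this]
  have hb1 : (P ν).real B ≤ 1 := measureReal_le_one
  have hb0 : 0 ≤ (P ν).real B := measureReal_nonneg
  have hc1 : (P ν).real C' ≤ 1 := measureReal_le_one
  have hc0 : 0 ≤ (P ν).real C' := measureReal_nonneg
  rw [Real.dist_eq]
  have h4 : |(P ν).real C * (P ν).real C' - (P ν).real B * (P ν).real A|
      ≤ (P ν).real (B ∆ C) + (P ν).real (A ∆ C') := by
    have : (P ν).real C * (P ν).real C' - (P ν).real B * (P ν).real A =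
        -((P ν).real B - (P ν).real C) * (P ν).real C'
          + (-((P ν).real A - (P ν).real C')) * (P ν).real B := by ring
    rw [this]
    refine (abs_add_le _ _).trans ?_
    rw [abs_mul, abs_mul, abs_neg, abs_neg, abs_of_nonneg hc0, abs_of_nonneg hb0]
    have i1 : |(P ν).real B - (P ν).real C| * (P ν).real C' ≤ (P ν).real (B ∆ C) * 1 :=
      mul_le_mul h2 hc1 hc0 measureReal_nonneg
    have i2 : |(P ν).real A - (P ν).real C'| * (P ν).real B ≤ (P ν).real (A ∆ C') * 1 :=
      mul_le_mul h2' hb1 hb0 measureReal_nonneg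
    linarith
  have h6 : |(P ν).real (B ∩ sh n ⁻¹' A) - (P ν).real B * (P ν).real A| ≤
      |(P ν).real (B ∩ sh n ⁻¹' A) - (P ν).real (C ∩ sh n ⁻¹' C')| +
        |(P ν).real C * (P ν).real C' - (P ν).real B * (P ν).real A| := by
    have := abs_add_le ((P ν).real (B ∩ sh n ⁻¹' A) - (P ν).real (C ∩ sh n ⁻¹' C'))
      ((P ν).real C * (P ν).real C' - (P ν).real B * (P ν).real A)
    rw [h1] at this ⊢
    refine le_trans (le_of_eq ?_) this
    congr 1; ring
  linarith

theorem mixing {A B : Set (ℕ → Y)} (hA : MeasurableSet A) (hB : MeasurableSet B) :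
    Tendsto (fun n : ℕ => (P ν) ((sh 1)^[n] ⁻¹' A ∩ B)) atTop
      (𝓝 ((P ν) A * (P ν) B)) := by
  have h := ENNReal.tendsto_ofReal (mixing_real ν hA hB)
  have e1 : ENNReal.ofReal ((P ν).real B * (P ν).real A) = (P ν) A * (P ν) B := by
    rw [Measure.real, Measure.real, ← ENNReal.toReal_mul, ENNReal.ofReal_toReal
      (ENNReal.mul_ne_top (measure_ne_top _ _) (measure_ne_top _ _)), mul_comm]
  rw [e1] at h
  refine h.congr fun n => ?_
  rw [Measure.real, ENNReal.ofReal_toReal (measure_ne_top _ _), sh_iter, inter_comm]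

end Pool.Agent.X125.Bern
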